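import Pool.Agent.H6.NB.Targets

namespace Pool.Agent.H35.NB.P

open Filter Topology

theorem ev1 (k : ℕ) (r δ : ℝ) (hr : 1 < r) (hδ : 0 < δ) :
    ∀ᶠ n : ℕ in atTop, (n : ℝ) ^ k / r ^ n < δ :=
  (tendsto_pow_const_div_const_pow_of_one_lt k hr).eventually (gt_mem_nhds hδ)

/-- the last inequality -/
theorem last (C B n : ℕ) (ε : ℝ)
    (h : (n : ℝ) ^ B / ((2 : ℝ) ^ (2 * ε)) ^ n < 1 / (144 * ((C : ℝ) + 1) ^ 2)) :
    4 * ((C : ℝ) * (2 : ℝ) ^ ((1 / 2 - ε) * (n : ℝ))) * √(((n ^ B : ℕ) : ℝ) / 2 ^ n) < 1 / 3 := by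
  set x := 4 * ((C : ℝ) * (2 : ℝ) ^ ((1 / 2 - ε) * (n : ℝ))) * √(((n ^ B : ℕ) : ℝ) / 2 ^ n) with hx
  have hx0 : 0 ≤ x := by positivity
  have h2 : ((2 : ℝ) ^ ((1 / 2 - ε) * (n : ℝ))) ^ 2 = 2 ^ n / ((2 : ℝ) ^ (2 * ε)) ^ n := by
    rw [← Real.rpow_natCast ((2 : ℝ) ^ ((1 / 2 - ε) * (n : ℝ))) 2, ← Real.rpow_mul (by norm_num),
      ← Real.rpow_natCast ((2 : ℝ) ^ (2 * ε)) n, ← Real.rpow_mul (by norm_num),
      ← Real.rpow_natCast (2 : ℝ) n, ← Real.rpow_sub (by norm_num)]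
    congr 1
    push_cast
    ring
  have h3 : x ^ 2 = 16 * (C : ℝ) ^ 2 * ((n : ℝ) ^ B / ((2 : ℝ) ^ (2 * ε)) ^ n) := by
    rw [hx, mul_pow, mul_pow, mul_pow, h2, Real.sq_sqrt (by positivity)]
    have : (2 : ℝ) ^ n ≠ 0 := by positivity
    push_cast
    field_simp
    ring
  have h4 : x ^ 2 < (1 / 3) ^ 2 := by
    rw [h3]
    set y := (n : ℝ) ^ B / ((2 : ℝ) ^ (2 * ε)) ^ n with hy
    have hy0 : 0 ≤ y := by positivity
    have h5 : 0 < 144 * ((C : ℝ) + 1) ^ 2 := by positivity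
    rw [lt_div_iff₀ h5] at h
    have h6 : (C : ℝ) ^ 2 ≤ ((C : ℝ) + 1) ^ 2 := by
      have : (0 : ℝ) ≤ C := Nat.cast_nonneg C
      nlinarith
    have h7 : (C : ℝ) ^ 2 * y ≤ ((C : ℝ) + 1) ^ 2 * y := mul_le_mul_of_nonneg_right h6 hy0
    nlinarith
  exact lt_of_pow_lt_pow_left₀ 2 (by norm_num) h4

/-- the bracket -/
theorem bracket (n w s0 m : ℕ) (q : ℕ) (hw : 1 ≤ w)
    (h1 : 2 + 2 * q + (s0 + 1) * m ≤ w)
    (h2 : (128 * (w : ℝ)) ^ (2 * m + 3) ≤ 2 ^ n) :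
    (128 * (w : ℝ)) ^ (2 * m) * ((w : ℝ) ^ 2 +
      (2 * 2 ^ q) ^ 2 * (((2 ^ s0 : ℕ) : ℝ) + 1) ^ m / 2 ^ w) + 1 ≤ 2 ^ n := by
  have hw' : (1 : ℝ) ≤ w := by exact_mod_cast hw
  have h3 : (2 * 2 ^ q : ℝ) ^ 2 * (((2 ^ s0 : ℕ) : ℝ) + 1) ^ m / 2 ^ w ≤ 1 := by
    rw [div_le_one (by positivity)]
    have h4 : (((2 ^ s0 : ℕ) : ℝ) + 1) ≤ 2 ^ (s0 + 1) := by
      push_cast
      have : (1 : ℝ) ≤ 2 ^ s0 := one_le_pow₀ (by norm_num)
      rw [pow_succ]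
      linarith
    calc (2 * 2 ^ q : ℝ) ^ 2 * (((2 ^ s0 : ℕ) : ℝ) + 1) ^ m ≤ (2 * 2 ^ q : ℝ) ^ 2 * (2 ^ (s0 + 1)) ^ m := by
          gcongr
      _ = 2 ^ (2 + 2 * q + (s0 + 1) * m) := by
          rw [← pow_mul, pow_add, pow_add]
          ring
      _ ≤ 2 ^ w := pow_le_pow_right₀ (by norm_num) h1
  set x : ℝ := 128 * (w : ℝ) with hx
  have hx1 : 128 ≤ x := by rw [hx]; linarith
  have h5 : (w : ℝ) ^ 2 + (2 * 2 ^ q : ℝ) ^ 2 * (((2 ^ s0 : ℕ) : ℝ) + 1) ^ m / 2 ^ w ≤ x ^ 2 := by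
    have : (w : ℝ) ^ 2 + 1 ≤ x ^ 2 := by rw [hx]; nlinarith
    linarith
  have h6 : x ^ (2 * m) * x ^ 2 + 1 ≤ x ^ (2 * m + 3) := by
    have h7 : (1 : ℝ) ≤ x ^ (2 * m + 2) := one_le_pow₀ (by linarith)
    have h8 : x ^ (2 * m + 3) = x ^ (2 * m + 2) * x := by rw [← pow_succ]
    rw [← pow_add, h8]
    nlinarith
  calc _ ≤ x ^ (2 * m) * x ^ 2 + 1 := by gcongr
    _ ≤ _ := h6
    _ ≤ _ := h2

end Pool.Agent.H35.NB.P

open Filter Pool.Agent.H6.NB Pool.Agent.H35.NB.P in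
theorem Pool.Agent.H35.NB.t_par (h1 : T_PAA) : T_PAR := by
  intro c C ε hε
  refine ⟨c + 1, ?_⟩
  set a := c + 1 with ha
  obtain ⟨B, hB⟩ := h1 a (2 ^ a + 1)
  set D := 2 ^ a + B + 3 with hD
  set P := 2 * (5 * a + 2) + 3 with hP
  have e1 := ev1 ((D + 1) * P) 2 (1 / 128 ^ P) (by norm_num) (by positivity)
  have e2 := ev1 B ((2 : ℝ) ^ (2 * ε)) (1 / (144 * ((C : ℝ) + 1) ^ 2))
    (Real.one_lt_rpow (by norm_num) (by positivity)) (by positivity)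
  filter_upwards [e1, e2, eventually_ge_atTop (c + 3 + 226 + 10 * a)] with n h1 h2 hn
  have hn2 : 2 ≤ n := by omega
  have hn0 : 0 < n := by omega
  have ha2 : c + 2 ≤ 2 ^ a := Nat.lt_two_pow_self
  set N1 := n ^ 2 ^ a with hN1
  have hN1pos : 1 ≤ N1 := Nat.one_le_pow _ _ hn0
  have hmono : ∀ {i j : ℕ}, i ≤ j → n ^ i ≤ n ^ j := fun h => Nat.pow_le_pow_right hn0 h
  have hsucc : ∀ i, 3 * n ^ i ≤ n ^ (i + 1) := by
    intro i
    rw [pow_succ, mul_comm]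
    exact Nat.mul_le_mul_left _ (by omega)
  obtain ⟨r, k, K, hPar, hR, hK⟩ := hB n (n ^ 2 ^ c) (N1 + 2) hn2 (Nat.one_le_pow _ _ hn0)
    (hmono (by rw [ha, pow_succ]; omega)) (by
      have := hsucc (2 ^ a)
      rw [← hN1] at this
      omega)
  have hMpos : 1 ≤ n ^ B := Nat.one_le_pow _ _ hn0
  have hDB : n ^ B ≤ n ^ D := hmono (by omega)
  refine ⟨n ^ 2 ^ c, N1 + 2, 2 ^ n ^ D, n ^ B, n ^ (D + 1), r, k, K, hn2, ?_, ?_, ?_, hPar, hR, ?_, hK,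
    hMpos, ?_, ?_, ?_, Nat.one_le_pow _ _ hn0, ?_, ?_⟩
  · have h3 : n ^ c ≤ n ^ (c + 1) := hmono (by omega)
    have h4 : c ≤ n ^ (c + 1) := by
      have : n ^ 1 ≤ n ^ (c + 1) := hmono (by omega)
      rw [pow_one] at this
      omega
    have h5 := hsucc (c + 1)
    have h6 : n ^ (c + 2) ≤ N1 := hmono ha2
    have h7 : c + 1 + 1 = c + 2 := rfl
    rw [h7] at h5
    omega
  · have h3 : n ^ 2 ≤ N1 := hmono (by omega)
    have h4 := hsucc 1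
    rw [pow_one] at h4
    have h5 : (1 : ℕ) + 1 = 2 := rfl
    rw [h5] at h4
    omega
  · rw [← pow_mul, hN1, ha, pow_succ]
  · apply Nat.pow_le_pow_right (by norm_num)
    have h3 : n ^ 2 ^ c ≤ n ^ 2 ^ a := hmono (Nat.pow_le_pow_right (by norm_num) (by omega))
    have h4 := hsucc (2 ^ a)
    have h5 : n ^ (2 ^ a + 1) ≤ n ^ D := hmono (by omega)
    omega
  · have h3 : n ^ B < 2 ^ n ^ B := Nat.lt_two_pow_self
    have h4 : 2 ^ n ^ B ≤ 2 ^ n ^ D := Nat.pow_le_pow_right (by norm_num) hDB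
    omega
  · rw [← pow_mul, ← pow_add]
    apply Nat.pow_le_pow_right (by norm_num)
    have h3 : n * (n ^ B + 1) = n ^ (B + 1) + n := by ring
    rw [h3]
    have h4 : n ^ (B + 1) ≤ n ^ (D - 1) := hmono (by omega)
    have h5 : N1 ≤ n ^ (D - 1) := hmono (by omega)
    have h6 : n ^ 1 ≤ n ^ (D - 1) := hmono (by omega)
    have h7 := hsucc (D - 1)
    have h8 : D - 1 + 1 = D := by omega
    rw [h8] at h7
    rw [pow_one] at h6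
    omega
  · have h3 : (8 : ℕ) = 2 ^ 3 := by norm_num
    have h4 : (4 : ℕ) = 2 ^ 2 := by norm_num
    rw [h3, h4, ← pow_mul, ← pow_add]
    exact Nat.pow_le_pow_right (by norm_num) (by omega)
  · intro q hq
    have h3 : (128 * ((n ^ (D + 1) : ℕ) : ℝ)) ^ P ≤ 2 ^ n := by
      have h4 : (0 : ℝ) < 128 ^ P := by positivity
      have h5 : (0 : ℝ) < 2 ^ n := by positivity
      rw [div_lt_div_iff₀ h5 h4, one_mul] at h1
      calc (128 * ((n ^ (D + 1) : ℕ) : ℝ)) ^ P = (n : ℝ) ^ ((D + 1) * P) * 128 ^ P := by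
            push_cast
            rw [mul_pow, ← pow_mul]
            ring
        _ ≤ _ := le_of_lt h1
    refine bracket n (n ^ (D + 1)) (n ^ D) (5 * a + 2) q (Nat.one_le_pow _ _ hn0) ?_ h3
    have h5 : N1 ≤ n ^ D := hmono (by omega)
    have h6 : 1 ≤ n ^ D := Nat.one_le_pow _ _ hn0
    have h7 : (n ^ D + 1) * (5 * a + 2) ≤ n ^ D * (2 * (5 * a + 2)) := by
      have : (n ^ D + 1) ≤ n ^ D * 2 := by omega
      calc (n ^ D + 1) * (5 * a + 2) ≤ n ^ D * 2 * (5 * a + 2) := Nat.mul_le_mul_right _ this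
        _ = _ := by ring
    have h8 : 2 + 2 * q ≤ n ^ D * 222 := by omega
    calc 2 + 2 * q + (n ^ D + 1) * (5 * a + 2) ≤ n ^ D * 222 + n ^ D * (2 * (5 * a + 2)) :=
          Nat.add_le_add h8 h7
      _ = n ^ D * (226 + 10 * a) := by ring
      _ ≤ n ^ D * n := Nat.mul_le_mul_left _ (by omega)
      _ = _ := (pow_succ n D).symm
  · exact last C B n ε h2
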