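import Pool.Agent.H6.NB.Targets

namespace Pool.Agent.H35.NB.E

open Finset Pool.Agent.H6.NB

section gen

variable {Ω : Type} [Fintype Ω] [DecidableEq Ω] {T : Ω → Type} [∀ s, Fintype (T s)]
  [∀ s, DecidableEq (T s)]

omit [∀ s, DecidableEq (T s)] in
/-- total mass of a product -/
theorem sum_prod_one (w : ∀ s, T s → ℝ) (h : ∀ s, ∑ p, w s p = 1) :
    ∑ P : (∀ s, T s), ∏ s, w s (P s) = 1 := by
  have h1 := Finset.prod_univ_sum (fun s => (Finset.univ : Finset (T s))) w
  rw [Fintype.piFinset_univ] at h1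
  rw [← h1]
  exact Finset.prod_eq_one fun s _ => h s

omit [∀ s, DecidableEq (T s)] in
/-- marginal -/
theorem sum_prod_marg (w g : ∀ s, T s → ℝ) (h : ∀ s, ∑ p, w s p = 1) (s : Ω) :
    ∑ P : (∀ s, T s), (∏ s, w s (P s)) * g s (P s) = ∑ p, w s p * g s p := by
  have h1 := Finset.prod_univ_sum (fun s => (Finset.univ : Finset (T s)))
    (fun s' p => w s' p * if s' = s then g s' p else 1)
  rw [Fintype.piFinset_univ] at h1
  have h2 : ∀ P : (∀ s, T s), ∏ s', (w s' (P s') * if s' = s then g s' (P s') else 1) =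
      (∏ s, w s (P s)) * g s (P s) := by
    intro P
    rw [Finset.prod_mul_distrib, Finset.prod_ite_eq']
    simp
  rw [← Finset.sum_congr rfl fun P _ => h2 P, ← h1, Finset.prod_eq_single s]
  · simp
  · intro s' _ hs'
    simp only [if_neg hs', mul_one]
    exact h s'
  · intro h; exact absurd (Finset.mem_univ _) h

end gen

theorem bi_le (b : Bool) : 0 ≤ bi b ∧ bi b ≤ 1 := by
  cases b <;> simp [bi]

end Pool.Agent.H35.NB.E

open Finset Pool.Agent.H6.NB Pool.Agent.H35.NB.E in
theorem Pool.Agent.H35.NB.t_exi (h1 : T_IDE) (h2 : T_CER) (h3 : T_HYB) (h4 : T_CPY) (h5 : T_CHV)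
    (h6 : T_CBD) (h7 : T_CLR) (h8 : T_DIF) (h9 : T_MUP) (h10 : T_DCP) (_h11 : T_EXB) : T_EXI := by
  classical
  intro X Yv Ω _ _ _ _ _ _ nn qq D lev t h R S M r k K Λ hSys hPar hXY hX hR hS2 htS hKM hMS hΩS hq
    hL12 h8R hsum1 hsum2
  -- weights
  let T : Ω → Type := fun s => Fin (nn s) → VV (qq s) → Bool
  let m : Bool → ∀ s, T s → ℝ := fun b s p => ∏ i, mu b (qq s) (p i)
  have hmu0 : ∀ b q p, 0 ≤ mu b q p := fun b q p => (h9 b q).1 p
  have hmu1 : ∀ b q, ∑ p, mu b q p = 1 := fun b q => (h9 b q).2.1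
  have hm0 : ∀ b s p, 0 ≤ m b s p := fun b s p => Finset.prod_nonneg fun i _ => hmu0 _ _ _
  have hm1 : ∀ b s, ∑ p, m b s p = 1 := by
    intro b s
    have := Fintype.sum_pow (fun p => mu b (qq s) p) (nn s)
    rw [hmu1, one_pow] at this
    exact this.symm
  let W : (Ω → Bool) → (∀ s, T s) → ℝ := fun κ P => ∏ s, m (κ s) s (P s)
  have hW0 : ∀ κ P, 0 ≤ W κ P := fun κ P => Finset.prod_nonneg fun s _ => hm0 _ _ _
  have hW1 : ∀ κ, ∑ P, W κ P = 1 := fun κ => sum_prod_one (fun s p => m (κ s) s p) fun s => hm1 _ _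
  -- the event
  let F : (X → Yv) → (Ω → Bool) → (∀ s, T s) → ℝ := fun Y e P =>
    bi (decide (¬ Typ (accD D P) lev h K h (tot Y) e))
  have hlvl : ∀ P, Lvl (accD D P) lev t h := fun P => h2 X Yv Ω nn qq D lev t h S hSys P
  set TT : ℝ := (Fintype.card Yv : ℝ) ^ Fintype.card X * 2 ^ Fintype.card Ω with hTT
  have hTT0 : 0 < TT := by
    have : 0 < Fintype.card Yv := by omega
    positivity
  -- Step 1 and 2
  have hstep : ∀ Y : X → Yv, ∑ P, ∑ κ, W κ P * F Y (el (accD D P) (tot Y) κ h) P ≤
      ∑ e, (∑ P, W (fun _ => false) P * F Y e P + 1 / 4) := by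
    intro Y
    have e1 : ∀ P, ∑ κ, W κ P * F Y (el (accD D P) (tot Y) κ h) P =
        ∑ e, W (tht (accD D P) (tot Y) e) P * F Y e P := by
      intro P
      exact h5 X Yv Ω (accD D P) lev t h (tot Y) (fun κ e => W κ P * F Y e P) (hlvl P)
    rw [Finset.sum_congr rfl fun P _ => e1 P, Finset.sum_comm]
    refine Finset.sum_le_sum fun e _ => ?_
    have hhyb := h3 Ω T lev (fun P s => tht (accD D P) (tot Y) e s) m (fun P => F Y e P)
      (fun s => (nn s : ℝ) * ((Λ + 1) / √(2 ^ qq s))) hm0 hm1 (by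
        intro P P' s hPP
        simp only [tht, accD]
        congr 1
        simp only [dnf]
        rw [Bool.eq_iff_iff]
        simp only [List.any_eq_true, List.all_eq_true]
        have hvl : ∀ τ ∈ D s, ∀ c ∈ τ, vl (tot Y) e P c.1 = vl (tot Y) e P' c.1 := by
          intro τ hτ c hc
          have hlow := hSys.low s τ hτ c hc
          cases hc1 : c.1 with
          | cst b => rfl
          | bas x y => rfl
          | key s' => rfl
          | blk s' i v =>
            rw [hc1] at hlow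
            simp only [vl]
            rw [hPP s' hlow]
        constructor
        · rintro ⟨τ, hτ, hall⟩
          exact ⟨τ, hτ, fun c hc => by rw [← hvl τ hτ c hc]; exact hall c hc⟩
        · rintro ⟨τ, hτ, hall⟩
          exact ⟨τ, hτ, fun c hc => by rw [hvl τ hτ c hc]; exact hall c hc⟩) (by
        intro P s
        have hcpy := h4 (nn s) (VV (qq s) → Bool) (mu true (qq s)) (mu false (qq s))
          (fun p => F Y e (Function.update P s p)) ((Λ + 1) / √(2 ^ qq s)) (hmu0 _ _) (hmu0 _ _)
          (hmu1 _ _) (hmu1 _ _) (by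
            intro P' i
            have hupd : ∀ p, updC (nn := nn) (qq := qq) (Function.update P s P') s i p =
                Function.update P s (Function.update P' i p) := by
              intro p
              simp [updC]
            have hcl : Cl (VV (qq s)) S (5 * h + 2) fun p =>
                decide (¬ Typ (accD D (Function.update P s (Function.update P' i p))) lev h K h (tot Y) e) := by
              have := h6 X Yv Ω nn qq D lev t h S M K hSys hS2 htS hKM hMS hΩS hX (tot Y) e
                (Function.update P s P') s i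
              simp only [hupd] at this
              exact this
            refine h8 (qq s) (fun p => F Y e (Function.update P s (Function.update P' i p))) Λ (hq s) ?_ ?_
            · intro ρ
              exact hL12 s _ (h7 (VV (qq s)) S (5 * h + 2) _ ρ hcl)
            · intro y
              have := bi_le (decide (¬ Typ (accD D (Function.update P s (Function.update P' i y)))
                lev h K h (tot Y) e))
              rw [abs_le]
              exact ⟨by linarith [this.1], this.2⟩)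
        exact hcpy)
    have := (abs_le.mp hhyb).2
    linarith
  -- Step 3
  have hcount : ∀ P, ∑ Y : X → Yv, ∑ e, F Y e P ≤ TT / 4 := by
    intro P
    have e1 : ∑ Y : X → Yv, ∑ e, F Y e P = ((univ.filter fun p : (X → Yv) × (Ω → Bool) =>
        ¬ Typ (accD D P) lev h K h (tot p.1) p.2).card : ℝ) := by
      rw [Finset.card_filter, Fintype.sum_prod_type]
      push_cast
      refine Finset.sum_congr rfl fun Y _ => Finset.sum_congr rfl fun e _ => ?_
      simp only [F, bi, decide_eq_true_eq]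
    rw [e1]
    have e2 := h1 X Yv Ω (accD D P) lev t h R r k K (hlvl P) hPar hXY hR
    have e3 : ((univ.filter fun p : (X → Yv) × (Ω → Bool) =>
        ¬ Typ (accD D P) lev h K h (tot p.1) p.2).card : ℝ) * 4 ^ R ≤ Fintype.card Ω * (2 * TT) := by
      rw [hTT]
      exact_mod_cast e2
    have e4 : (8 : ℝ) * Fintype.card Ω ≤ 4 ^ R := by exact_mod_cast h8R
    have e5 : (0 : ℝ) < 4 ^ R := by positivity
    rw [le_div_iff₀ (by norm_num)]
    have e6 : ((univ.filter fun p : (X → Yv) × (Ω → Bool) =>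
        ¬ Typ (accD D P) lev h K h (tot p.1) p.2).card : ℝ) * 4 * 4 ^ R ≤ TT * 4 ^ R := by nlinarith
    exact le_of_mul_le_mul_right e6 e5
  have hA : ∑ Y : X → Yv, ∑ P, ∑ κ, W κ P * F Y (el (accD D P) (tot Y) κ h) P ≤ TT / 2 := by
    refine (Finset.sum_le_sum fun Y _ => hstep Y).trans ?_
    simp only [Finset.sum_add_distrib]
    have e1 : ∑ Y : X → Yv, ∑ e : Ω → Bool, ∑ P, W (fun _ => false) P * F Y e P ≤ TT / 4 := by
      have e2 : ∑ Y : X → Yv, ∑ e : Ω → Bool, ∑ P, W (fun _ => false) P * F Y e P =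
          ∑ P, W (fun _ => false) P * ∑ Y : X → Yv, ∑ e, F Y e P := by
        simp only [Finset.mul_sum]
        rw [Finset.sum_congr rfl fun Y _ => Finset.sum_comm]
        rw [Finset.sum_comm]
      rw [e2]
      calc _ ≤ ∑ P, W (fun _ => false) P * (TT / 4) :=
            Finset.sum_le_sum fun P _ => mul_le_mul_of_nonneg_left (hcount P) (hW0 _ _)
        _ = _ := by rw [← Finset.sum_mul, hW1, one_mul]
    have e3 : ∑ _Y : X → Yv, ∑ _e : Ω → Bool, (1 / 4 : ℝ) = TT / 4 := by
      simp only [Finset.sum_const, Finset.card_univ, Fintype.card_fun, Fintype.card_bool, nsmul_eq_mul]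
      push_cast
      rw [hTT]
      ring
    linarith
  -- Step 5
  let φ : ∀ (κ : Ω → Bool) (s : Ω), T s → ℝ := fun κ s p => if DecA (qq s) (nn s) (κ s) p then 0 else 1
  have hφ0 : ∀ κ s p, 0 ≤ φ κ s p := by
    intro κ s p
    simp only [φ]
    split_ifs <;> norm_num
  have hB : ∑ Y : X → Yv, ∑ P, ∑ κ, W κ P * ∑ s, φ κ s (P s) ≤ TT / 4 := by
    have e1 : ∀ κ, ∑ P, W κ P * ∑ s, φ κ s (P s) ≤ 1 / 4 := by
      intro κ
      simp only [Finset.mul_sum]
      rw [Finset.sum_comm]
      refine le_trans (Finset.sum_le_sum fun s _ => ?_) hsum2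
      have e2 := sum_prod_marg (fun s p => m (κ s) s p) (φ κ) (fun s => hm1 _ _) s
      rw [e2]
      exact h10 (qq s) (nn s) (κ s)
    have e3 : ∀ Y : X → Yv, ∑ P, ∑ κ, W κ P * ∑ s, φ κ s (P s) ≤ 2 ^ Fintype.card Ω * (1 / 4) := by
      intro Y
      rw [Finset.sum_comm]
      calc _ ≤ ∑ _κ : Ω → Bool, (1 / 4 : ℝ) := Finset.sum_le_sum fun κ _ => e1 κ
        _ = _ := by
          simp only [Finset.sum_const, Finset.card_univ, Fintype.card_fun, Fintype.card_bool, nsmul_eq_mul]
          push_cast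
          ring
    calc _ ≤ ∑ _Y : X → Yv, (2 ^ Fintype.card Ω * (1 / 4) : ℝ) := Finset.sum_le_sum fun Y _ => e3 Y
      _ = _ := by
        simp only [Finset.sum_const, Finset.card_univ, Fintype.card_fun, nsmul_eq_mul]
        push_cast
        rw [hTT]
        ring
  -- total mass
  have hmass : ∑ _Y : X → Yv, ∑ P, ∑ κ, W κ P = TT := by
    have e1 : ∑ P, ∑ κ, W κ P = 2 ^ Fintype.card Ω := by
      rw [Finset.sum_comm, Finset.sum_congr rfl fun κ _ => hW1 κ]
      simp
    rw [Finset.sum_congr rfl fun _ _ => e1]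
    simp only [Finset.sum_const, Finset.card_univ, Fintype.card_fun, nsmul_eq_mul]
    push_cast
    rw [hTT]
  by_contra hno
  push Not at hno
  have hge : ∀ (Y : X → Yv) P κ, (1 : ℝ) ≤ F Y (el (accD D P) (tot Y) κ h) P + ∑ s, φ κ s (P s) := by
    intro Y P κ
    by_cases ht : Typ (accD D P) lev h K h (tot Y) (el (accD D P) (tot Y) κ h)
    · obtain ⟨s, hs⟩ := hno Y κ P ht
      have e1 : φ κ s (P s) = 1 := if_neg hs
      have e2 : φ κ s (P s) ≤ ∑ s, φ κ s (P s) :=
        Finset.single_le_sum (f := fun s => φ κ s (P s)) (fun s _ => hφ0 κ s _) (Finset.mem_univ s)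
      have e3 := (bi_le (decide (¬ Typ (accD D P) lev h K h (tot Y) (el (accD D P) (tot Y) κ h)))).1
      simp only [F]
      linarith
    · have e1 : F Y (el (accD D P) (tot Y) κ h) P = 1 := by
        simp [F, bi, ht]
      have e2 : 0 ≤ ∑ s, φ κ s (P s) := Finset.sum_nonneg fun s _ => hφ0 κ s _
      linarith
  have hfin : TT ≤ TT / 2 + TT / 4 := by
    calc TT = ∑ _Y : X → Yv, ∑ P, ∑ κ, W κ P := hmass.symm
      _ ≤ ∑ Y : X → Yv, ∑ P, ∑ κ, (W κ P * F Y (el (accD D P) (tot Y) κ h) P +
          W κ P * ∑ s, φ κ s (P s)) := by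
        refine Finset.sum_le_sum fun Y _ => Finset.sum_le_sum fun P _ => Finset.sum_le_sum fun κ _ => ?_
        have := mul_le_mul_of_nonneg_left (hge Y P κ) (hW0 κ P)
        rw [mul_one, mul_add] at this
        exact this
      _ = _ := by simp only [Finset.sum_add_distrib]
      _ ≤ _ := add_le_add hA hB
  linarith
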