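import Pool.Agent.H6.NB.Targets

namespace Pool.Agent.H35.NB.S

open Finset Pool.Agent.H6.NB

section

variable {X Yv Ω : Type} [Fintype X] [DecidableEq X]
  {acc : Ω → Fn X Yv Ω} {lev : Ω → ℕ} {t h j : ℕ} {Y : X → Option Yv}

omit [Fintype X] in
theorem fl_ne (e : Ω → Bool) (Z : Finset X) {s : Ω} (hs : lev s ≠ j) :
    fl acc lev h Y j e Z s = e s := by
  simp [fl, hs]

omit [Fintype X] in
theorem fl_eq (e : Ω → Bool) (Z : Finset X) {s : Ω} (hs : lev s = j) :
    fl acc lev h Y j e Z s =
      xor (e s) (decide (Odd (Z.filter fun x => dlt acc h Y e x s = true).card)) := by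
  simp [fl, hs]

theorem dlt_fl (h4 : T_EXB) (hL : Lvl acc lev t h) (e : Ω → Bool) (Z : Finset X) (x : X) {s : Ω}
    (hs : lev s ≤ j) : dlt acc h Y (fl acc lev h Y j e Z) x s = dlt acc h Y e x s := by
  obtain ⟨_, _, _, h5⟩ := h4 X Yv Ω acc lev t h hL
  refine h5 Y _ _ x s fun s' hs' => fl_ne e Z (by omega)

theorem fl_empty (e : Ω → Bool) : fl acc lev h Y j e ∅ = e := by
  ext s
  by_cases hs : lev s = j
  · rw [fl_eq _ _ hs]; simp
  · rw [fl_ne _ _ hs]

theorem fl_erase (h4 : T_EXB) (hL : Lvl acc lev t h) (e : Ω → Bool) (Z : Finset X) (x : X)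
    (hx : x ∈ Z) : fl acc lev h Y j e (Z.erase x) =
      fl acc lev h Y j (fl acc lev h Y j e Z) {x} := by
  ext s
  by_cases hs : lev s = j
  · rw [fl_eq _ _ hs, fl_eq _ _ hs, fl_eq _ _ hs]
    have h1 : dlt acc h Y (fl acc lev h Y j e Z) x s = dlt acc h Y e x s :=
      dlt_fl h4 hL e Z x (le_of_eq hs)
    have h2 : (({x} : Finset X).filter fun x => dlt acc h Y (fl acc lev h Y j e Z) x s = true).card =
        if dlt acc h Y e x s = true then 1 else 0 := by
      rw [Finset.filter_singleton, h1]
      split_ifs <;> simp
    have h3 : (Z.filter fun x => dlt acc h Y e x s = true).card =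
        ((Z.erase x).filter fun x => dlt acc h Y e x s = true).card +
          if dlt acc h Y e x s = true then 1 else 0 := by
      rw [← Finset.insert_erase hx, Finset.filter_insert, Finset.erase_insert (Finset.notMem_erase x Z)]
      split_ifs with hd
      · rw [Finset.card_insert_of_notMem]
        intro hmem
        exact Finset.notMem_erase x Z (Finset.mem_filter.mp hmem).1
      · rfl
    rw [h2, h3]
    by_cases hd : dlt acc h Y e x s = true
    · simp only [hd, if_true]
      by_cases ho : Odd ((Z.erase x).filter fun x => dlt acc h Y e x s = true).card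
      · have : ¬ Odd (((Z.erase x).filter fun x => dlt acc h Y e x s = true).card + 1) := by
          rw [Nat.not_odd_iff_even]; exact ho.add_one
        simp [ho, this]
      · have : Odd (((Z.erase x).filter fun x => dlt acc h Y e x s = true).card + 1) := by
          exact (Nat.not_odd_iff_even.mp ho).add_one
        simp [ho, this]
    · simp [hd]
  · rw [fl_ne _ _ hs, fl_ne _ _ hs, fl_ne _ _ hs]

omit [Fintype X] in
theorem ex_eq (e : Ω → Bool) (x : X) (s : Ω) : ex acc h Y e x s = xor (e s) (dlt acc h Y e x s) := by
  simp [dlt]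

/-- the union of few dependence sets -/
theorem union_card (hK : ℕ) (B : Finset Ω) (e : Ω → Bool) (S : Finset X)
    (hB : B.card ≤ t) (hd : ∀ s ∈ B, lev s = j → (dset acc h Y e s).card ≤ hK)
    (hS : ∀ x ∈ S, ∃ s ∈ B, lev s = j ∧ dlt acc h Y e x s = true) : S.card ≤ t * hK := by
  classical
  have h1 : S ⊆ (B.filter fun s => lev s = j).biUnion fun s => dset acc h Y e s := by
    intro x hx
    obtain ⟨s, hs, hl, hdl⟩ := hS x hx
    exact Finset.mem_biUnion.mpr ⟨s, Finset.mem_filter.mpr ⟨hs, hl⟩,
      Finset.mem_filter.mpr ⟨Finset.mem_univ _, hdl⟩⟩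
  refine (Finset.card_le_card h1).trans ?_
  refine (Finset.card_biUnion_le_card_mul _ _ hK ?_).trans ?_
  · intro s hs
    exact hd s (Finset.mem_filter.mp hs).1 (Finset.mem_filter.mp hs).2
  · exact Nat.mul_le_mul_right _ ((Finset.card_filter_le _ _).trans hB)

end

end Pool.Agent.H35.NB.S

open Finset Pool.Agent.H6.NB Pool.Agent.H35.NB.S in
theorem Pool.Agent.H35.NB.t_sta (h1 : T_TUR) (h2 : T_CHO) (h3 : T_FIB) (h4 : T_EXB) (_h5 : T_LOC) :
    T_STA := by
  classical
  intro X Yv Ω _ _ _ _ _ acc lev t h j r k k' K G Y hL hC ht hK hk' p hp _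
  set q := t * K j + k with hq
  have hq1 : 1 ≤ q := by
    have : 1 ≤ t * K j := Nat.one_le_iff_ne_zero.mpr (by positivity)
    omega
  -- certificates
  have hcert : ∀ (Y' : X → Option Yv) (e' : Ω → Bool), ∃ B : Finset Ω, G Y' e' = true →
      B.card ≤ t ∧ (∀ s ∈ B, lev s < j + 1) ∧ ∀ e'', (∀ s ∈ B, e'' s = e' s) → G Y' e'' = true := by
    intro Y' e'
    by_cases hG : G Y' e' = true
    · obtain ⟨A, B, hc, hl, hst⟩ := hC Y' e' hG
      exact ⟨B, fun _ => ⟨by omega, hl, fun e'' he => hst Y' e'' (fun _ _ => Iff.rfl) he⟩⟩
    · exact ⟨∅, fun h => absurd h hG⟩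
  choose B hB using hcert
  let F : (Ω → Bool) → Finset X → (Ω → Bool) := fun e Z => fl acc lev h Y j e Z
  let L0 : (Ω → Bool) → Finset X := fun e' =>
    if G Y e' = true then univ.filter fun x => ∃ s ∈ B Y e', lev s = j ∧ dlt acc h Y e' x s = true
    else uph acc lev h G j Y e'
  let L : (Ω → Bool) → Finset X := fun e' => if (L0 e').card ≤ q then L0 e' else ∅
  let P : Finset ((Ω → Bool) × Finset X) := univ.filter fun z =>
    p z.1 ∧ G Y z.1 = false ∧ z.2.card ≤ r ∧
      ∀ Z' ⊆ z.2, ∀ x ∈ Z', hx acc lev h G j Y (F z.1 Z') x = true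
  have hfib := h3 (Ω → Bool) X X P F L id (fun x e' => F e' {x}) q (fun e => fl_empty e)
    (by
      intro e'
      simp only [L]
      split_ifs with hc
      · exact hc
      · simp)
    (by
      intro e Z hP hne
      obtain ⟨hpe, hGe, hZr, hhx⟩ := (Finset.mem_filter.mp hP).2
      simp only at hpe hGe hZr hhx
      obtain ⟨htyp, hup, huph⟩ := hp e hpe
      have hcard : (L0 (F e Z)).card ≤ q := by
        simp only [L0]
        split_ifs with hG
        · refine le_trans (union_card (acc := acc) (lev := lev) (t := t) (h := h) (j := j) (Y := Y)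
            (K j) (B Y (F e Z)) (F e Z) _ (hB Y _ hG).1 ?_ ?_) (Nat.le_add_right _ _)
          · intro s _ hs
            have : dset acc h Y (F e Z) s = dset acc h Y e s := by
              ext x
              simp only [dset, Finset.mem_filter, Finset.mem_univ, true_and]
              rw [dlt_fl h4 hL e Z x (le_of_eq hs)]
            rw [this, ← hs]
            exact htyp s (by omega)
          · intro x hx
            exact (Finset.mem_filter.mp hx).2
        · exact (huph Z hZr).trans (Nat.le_add_left _ _)
      have hexists : ∃ x ∈ L0 (F e Z), x ∈ Z := by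
        simp only [L0]
        split_ifs with hG
        · have h6 : ∃ s ∈ B Y (F e Z), e s ≠ F e Z s := by
            by_contra hcon
            push Not at hcon
            have := (hB Y _ hG).2.2 e hcon
            rw [hGe] at this
            exact absurd this (by simp)
          obtain ⟨s, hs, hne'⟩ := h6
          have hlev : lev s = j := by
            by_contra hl
            exact hne' (fl_ne e Z hl).symm
          have hodd : Odd (Z.filter fun x => dlt acc h Y e x s = true).card := by
            by_contra ho
            apply hne'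
            change e s = fl acc lev h Y j e Z s
            rw [fl_eq e Z hlev]
            simp [ho]
          obtain ⟨x, hx⟩ := Finset.card_pos.mp hodd.pos
          refine ⟨x, Finset.mem_filter.mpr ⟨Finset.mem_univ _, s, hs, hlev, ?_⟩,
            (Finset.mem_filter.mp hx).1⟩
          rw [dlt_fl h4 hL e Z x (le_of_eq hlev)]
          exact (Finset.mem_filter.mp hx).2
        · obtain ⟨x, hx⟩ := hne
          refine ⟨x, Finset.mem_filter.mpr ⟨Finset.mem_univ _, ?_, hhx Z (Finset.Subset.refl _) x hx⟩, hx⟩
          simpa using hG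
      obtain ⟨x, hx1, hx2⟩ := hexists
      refine ⟨x, ?_, hx2, ?_, fl_erase h4 hL e Z x hx2⟩
      · simp only [L]
        rw [if_pos hcard]
        exact hx1
      · refine Finset.mem_filter.mpr ⟨Finset.mem_univ _, hpe, hGe, ?_, ?_⟩
        · exact (Finset.card_le_card (Finset.erase_subset _ _)).trans hZr
        · intro Z' hZ' x' hx'
          exact hhx Z' (hZ'.trans (Finset.erase_subset _ _)) x' hx')
  -- upper bound
  have hupper : (P.filter fun z => z.2.card = r).card ≤ q ^ r * 2 ^ Fintype.card Ω := by
    have h6 : (P.filter fun z => z.2.card = r).card =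
        ∑ e' : Ω → Bool, ((P.filter fun z => z.2.card = r).filter fun z => F z.1 z.2 = e').card :=
      Finset.card_eq_sum_card_fiberwise (fun _ _ => Finset.mem_coe.mpr (Finset.mem_univ _))
    rw [h6]
    refine (Finset.sum_le_card_nsmul _ _ (q ^ r) fun e' _ => ?_).trans (le_of_eq ?_)
    · rw [Finset.filter_filter]
      exact hfib r e'
    · rw [Finset.card_univ, Fintype.card_fun, Fintype.card_bool, smul_eq_mul, mul_comm]
  -- lower bound
  have hlower : (univ.filter p).card * (4 * q) ^ r ≤ (P.filter fun z => z.2.card = r).card := by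
    have h6 : ∀ e ∈ univ.filter p, (4 * q) ^ r ≤
        ((P.filter fun z => z.2.card = r).filter fun z => z.1 = e).card := by
      intro e he
      have hpe := (Finset.mem_filter.mp he).2
      obtain ⟨htyp, hup, huph⟩ := hp e hpe
      have hupne : (upx acc h G Y e).Nonempty := Finset.card_pos.mp (by omega)
      have hGe : G Y e = false := by
        obtain ⟨x, hx⟩ := hupne
        exact (Finset.mem_filter.mp hx).2.1
      let R : X → X → Prop := fun x x' => ∃ s ∈ B (sta Y x) (ex acc h Y e x), lev s = j ∧
        dlt acc h Y e x' s = true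
      obtain ⟨T, hTS, hTcard, hTR⟩ := h1 X (upx acc h G Y e) R (t * K j) (by
        intro x hx
        have hGx := (Finset.mem_filter.mp hx).2.2
        refine union_card (acc := acc) (lev := lev) (t := t) (h := h) (j := j) (Y := Y)
            (K j) (B (sta Y x) (ex acc h Y e x)) e _ (hB _ _ hGx).1 ?_ ?_
        · intro s _ hs
          rw [← hs]
          exact htyp s (by omega)
        · intro x' hx'
          exact (Finset.mem_filter.mp hx').2)
      have hT : 5 * q * r ≤ T.card := by
        have h7 : (2 * (t * K j) + 1) * (5 * q * r) < (2 * (t * K j) + 1) * T.card :=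
          lt_of_le_of_lt hk' (lt_of_lt_of_le hup hTcard)
        exact le_of_lt (Nat.lt_of_mul_lt_mul_left h7)
      have hch := h2 q r T.card hq1 hT
      refine hch.trans ?_
      rw [← Finset.card_powersetCard]
      refine Finset.card_le_card_of_injOn (fun Z => (e, Z)) ?_ (fun a _ b _ hab => (Prod.mk.inj hab).2)
      intro Z hZ
      obtain ⟨hZT, hZc⟩ := Finset.mem_powersetCard.mp (Finset.mem_coe.mp hZ)
      refine Finset.mem_coe.mpr (Finset.mem_filter.mpr ⟨Finset.mem_filter.mpr
        ⟨Finset.mem_filter.mpr ⟨Finset.mem_univ _, hpe, hGe, le_of_eq hZc, ?_⟩, hZc⟩, rfl⟩)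
      intro Z' hZ' x hx
      have hxT := hZT (hZ' hx)
      have hGx := (Finset.mem_filter.mp (hTS hxT)).2.2
      refine (hB _ _ hGx).2.2 _ ?_
      intro s hs
      have hsl := (hB _ _ hGx).2.1 s hs
      by_cases hlt : lev s < j
      · simp only [hlt, if_true]
        rw [ex_eq, ex_eq]
        rw [dlt_fl h4 hL e Z' x (le_of_lt hlt)]
        congr 1
        exact fl_ne e Z' (by omega)
      · have hlev : lev s = j := by omega
        simp only [hlt, if_false]
        rw [ex_eq]
        change fl acc lev h Y j e Z' s = _
        rw [fl_eq e Z' hlev]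
        congr 1
        have h8 : (Z'.filter fun x' => dlt acc h Y e x' s = true) =
            if dlt acc h Y e x s = true then {x} else ∅ := by
          ext x'
          rw [Finset.mem_filter]
          by_cases hxx : x' = x
          · subst hxx
            split_ifs with hd
            · simp [hx, hd]
            · simp [hd]
          · have hno := hTR x hxT x' 
            constructor
            · rintro ⟨hx'Z, hd⟩
              exfalso
              exact hno (hZT (hZ' hx'Z)) (fun h => hxx h.symm) ⟨s, hs, hlev, hd⟩
            · intro hmem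
              split_ifs at hmem with hd
              · exact absurd (Finset.mem_singleton.mp hmem) hxx
              · exact absurd hmem (Finset.notMem_empty _)
        rw [h8]
        by_cases hd : dlt acc h Y e x s = true
        · simp [hd]
        · simp [hd]
    calc (univ.filter p).card * (4 * q) ^ r = ∑ e ∈ univ.filter p, (4 * q) ^ r := by
          rw [Finset.sum_const, smul_eq_mul]
      _ ≤ ∑ e ∈ univ.filter p, ((P.filter fun z => z.2.card = r).filter fun z => z.1 = e).card :=
          Finset.sum_le_sum h6
      _ ≤ ∑ e : Ω → Bool, ((P.filter fun z => z.2.card = r).filter fun z => z.1 = e).card :=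
          Finset.sum_le_sum_of_subset (Finset.subset_univ _)
      _ = _ := (Finset.card_eq_sum_card_fiberwise
          (fun _ _ => Finset.mem_coe.mpr (Finset.mem_univ _))).symm
  have h9 : (univ.filter p).card * 4 ^ r * q ^ r ≤ 2 ^ Fintype.card Ω * q ^ r := by
    calc (univ.filter p).card * 4 ^ r * q ^ r = (univ.filter p).card * (4 * q) ^ r := by
          rw [mul_pow, mul_assoc]
      _ ≤ _ := hlower
      _ ≤ _ := hupper
      _ = _ := by ring
  exact Nat.le_of_mul_le_mul_right h9 (by positivity)
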